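import Pool.Agent.W601.RP.Stm2

/-!
# Sequences of letters give infinite chains
-/

set_option autoImplicit false

namespace Pool.Agent.W82.RP

open Pool.Agent.W601.RP

/-- the list of the first `m + 1` letters -/
def ll (a : ℕ → Letter) (m : ℕ) : List Letter := (List.range (m + 1)).map a

theorem ll_len (a : ℕ → Letter) (m : ℕ) : (ll a m).length = m + 1 := by
  unfold ll
  simp

theorem ll_lst (a : ℕ → Letter) (m : ℕ) : lst (ll a m) = a m := by
  unfold lst ll
  rw [List.range_succ, List.map_append]
  simp

theorem ll_pre (a : ℕ → Letter) {m m' : ℕ} (h : m < m') : ll a m <+: ll a m' := by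
  unfold ll
  have h1 : List.range (m + 1) <+: List.range (m' + 1) := by
    have h2 : (List.range (m' + 1)).take (m + 1) = List.range (m + 1) := by
      rw [List.take_range]
      congr 1
      omega
    rw [← h2]
    exact List.take_prefix _ _
  exact h1.map a

theorem ll_nd (a : ℕ → Letter) (ha : ∀ m, GoodL (a m)) (hf : ∀ m m', m < m' → Foll (a m) (a m'))
    (m : ℕ) : Nd (ll a m) := by
  refine ⟨?_, ?_, ?_⟩
  · intro h
    have := ll_len a m
    rw [h] at this
    simp at this
  · intro b hb
    unfold ll at hb
    rw [List.mem_map] at hb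
    obtain ⟨i, _, rfl⟩ := hb
    exact ha i
  · unfold ll
    rw [List.pairwise_map]
    exact List.Pairwise.imp (fun h => hf _ _ h) List.pairwise_lt_range

theorem br : S_NODE → S_BR := by
  rintro ⟨hinj, hnod, -⟩ a ha hf
  have hlen : ∀ m m', idx (ll a m) = idx (ll a m') → m = m' := by
    intro m m' h
    have h1 := congrArg List.length (hinj _ _ h)
    rw [ll_len, ll_len] at h1
    omega
  refine ⟨fun m => idx (ll a m), fun m m' h => hlen m m' h, ?_, ?_⟩
  · have key : ∀ m m', m < m' → Lt (idx (ll a m)) (idx (ll a m')) := by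
      intro m m' h
      refine ⟨ll a m, ll a m', ll_nd a ha hf m, ll_nd a ha hf m', rfl, rfl, ll_pre a h, ?_⟩
      intro he
      have h1 := congrArg List.length he
      rw [ll_len, ll_len] at h1
      omega
    rintro t ⟨m, rfl⟩ u ⟨m', rfl⟩ hne
    rcases lt_trichotomy m m' with h | h | h
    · exact Or.inl (key m m' h)
    · subst h
      exact absurd rfl hne
    · exact Or.inr (key m' m h)
  · intro m
    refine ⟨⟨ll a m, ll_nd a ha hf m, rfl⟩, ?_⟩
    unfold lt
    rw [hnod _ (ll_nd a ha hf m)]
    exact ll_lst a m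

end Pool.Agent.W82.RP
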